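import Pool.Agent.V1181.HN.Main

set_option autoImplicit false

open MeasureTheory Metric Set InnerProductGeometry

namespace Pool.Agent.V1181.HN

/-- weights -/
noncomputable def b (i : Fin 7) : ℝ := if i = 0 then 1025 else 64

/-- the vector field -/
noncomputable def phi (x : E 7) (i : Fin 7) : ℝ := b i * x i / √(Q (x 0))

theorem Q_even (u : ℝ) : Q (-u) = Q u := by unfold Q; ring

theorem sum_sq (x : sphere (0 : E 7) 1) : ∑ i, (x : E 7) i ^ 2 = 1 := by
  have h : ‖(x : E 7)‖ = 1 := by simp
  have h2 := EuclideanSpace.real_norm_sq_eq (x : E 7)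
  rw [h] at h2
  linarith

theorem sum_bsq (x : sphere (0 : E 7) 1) : ∑ i, (b i * (x : E 7) i) ^ 2 = Q ((x : E 7) 0) := by
  have h := sum_sq x
  have e : ∀ i, (b i * (x : E 7) i) ^ 2 = 4096 * (x : E 7) i ^ 2 +
      if i = 0 then 1046529 * (x : E 7) i ^ 2 else 0 := by
    intro i
    unfold b
    split_ifs with hi
    · ring
    · ring
  simp only [e, Finset.sum_add_distrib, ← Finset.mul_sum, h, Finset.sum_ite_eq', Finset.mem_univ,
    if_true]
  unfold Q; ring

theorem phi_sq (x : sphere (0 : E 7) 1) : ∑ i, phi (x : E 7) i ^ 2 = 1 := by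
  have h := sum_bsq x
  unfold phi
  simp only [div_pow, Real.sq_sqrt (Q_pos _).le]
  rw [← Finset.sum_div, h, div_self (Q_pos _).ne']

theorem cont_phi (i : Fin 7) : Continuous (fun x : E 7 => phi x i) := by
  unfold phi
  refine Continuous.div (by fun_prop) (cont_sqrtQ.comp (by fun_prop)) (fun x => ?_)
  exact (Real.sqrt_pos.2 (Q_pos _)).ne'

theorem integ {f : E 7 → ℝ} (hf : Continuous f) :
    Integrable (fun x : sphere (0 : E 7) 1 => f (x : E 7)) (sph 7) := by
  have : Continuous (fun x : sphere (0 : E 7) 1 => f (x : E 7)) := hf.comp continuous_subtype_val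
  have h2 := this.continuousOn.integrableOn_compact (μ := sph 7) (isCompact_univ)
  simpa using h2

/-- the moments of the field -/
noncomputable def M (i j : Fin 7) : ℝ := ∫ x, phi (x : E 7) i * (x : E 7) j ∂(sph 7)

theorem M_off {i j : Fin 7} (h : i ≠ j) : M i j = 0 := by
  have h1 := inv_iso (flip j) (fun x => phi x i * x j) ((cont_phi i).mul (by fun_prop))
  have h2 : ∀ x : sphere (0 : E 7) 1, phi (flip j (x : E 7)) i * (flip j (x : E 7)) j =
      - (phi (x : E 7) i * (x : E 7) j) := by
    intro x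
    have hQ : Q ((flip j (x : E 7)) 0) = Q ((x : E 7) 0) := by
      rw [flip_apply]
      split_ifs
      · exact Q_even _
      · rfl
    unfold phi
    rw [hQ, flip_apply j i, if_neg h, flip_apply j j, if_pos rfl]
    ring
  simp only [h2, integral_neg] at h1
  unfold M
  linarith

theorem M_swap {i k : Fin 7} (hi : i ≠ 0) (hk : k ≠ 0) : M i i = M k k := by
  have h1 := inv_iso (swp i k) (fun x => phi x i * x i) ((cont_phi i).mul (by fun_prop))
  have h2 : ∀ x : sphere (0 : E 7) 1, phi (swp i k (x : E 7)) i * (swp i k (x : E 7)) i =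
      phi (x : E 7) k * (x : E 7) k := by
    intro x
    unfold phi
    rw [swp_apply, swp_apply, Equiv.swap_apply_left, Equiv.swap_apply_of_ne_of_ne hi.symm hk.symm]
    unfold b
    rw [if_neg hi, if_neg hk]
  simp only [h2] at h1
  unfold M
  exact h1.symm

theorem M_zero : M 0 0 = 1025 * ∫ x, (fun u : ℝ => u ^ 2 / √(Q u)) ((x : E 7) 0) ∂(sph 7) := by
  unfold M
  rw [← integral_const_mul]
  congr 1
  ext x
  unfold phi b
  rw [if_pos rfl]
  ring

theorem M_sum : ∑ i, M i i = M 0 0 +
    64 * ∫ x, (fun u : ℝ => (1 - u ^ 2) / √(Q u)) ((x : E 7) 0) ∂(sph 7) := by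
  have hs : ∑ i, M i i = ∫ x : sphere (0 : E 7) 1, ∑ i, phi (x : E 7) i * (x : E 7) i ∂(sph 7) := by
    have := integral_finsetSum (μ := sph 7) Finset.univ
      (f := fun (i : Fin 7) (x : sphere (0 : E 7) 1) => phi (x : E 7) i * (x : E 7) i)
      (fun i _ => integ (f := fun x => phi x i * x i) ((cont_phi i).mul (by fun_prop)))
    exact this.symm
  have i1 : Integrable (fun x : sphere (0 : E 7) 1 => phi (x : E 7) 0 * (x : E 7) 0) (sph 7) :=
    integ (f := fun x => phi x 0 * x 0) ((cont_phi 0).mul (by fun_prop))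
  have i2 : Integrable (fun x : sphere (0 : E 7) 1 =>
      64 * ((1 - (x : E 7) 0 ^ 2) / √(Q ((x : E 7) 0)))) (sph 7) := by
    refine Integrable.const_mul ?_ _
    refine integ (f := fun x : E 7 => (1 - x 0 ^ 2) / √(Q (x 0))) ?_
    refine Continuous.div (by fun_prop) (cont_sqrtQ.comp (by fun_prop)) (fun x => ?_)
    exact (Real.sqrt_pos.2 (Q_pos _)).ne'
  have h2 := integral_add i1 i2
  rw [integral_const_mul] at h2
  rw [hs]
  have h3 : M 0 0 = ∫ x : sphere (0 : E 7) 1, phi (x : E 7) 0 * (x : E 7) 0 ∂(sph 7) := rfl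
  rw [h3]
  refine Eq.trans ?_ h2
  · congr 1
    ext x
    have h := sum_sq x
    have e : ∀ i, phi (x : E 7) i * (x : E 7) i = 64 / √(Q ((x : E 7) 0)) * (x : E 7) i ^ 2 +
        if i = 0 then 961 / √(Q ((x : E 7) 0)) * (x : E 7) i ^ 2 else 0 := by
      intro i
      unfold phi b
      split_ifs with hi
      · subst hi; ring
      · ring
    simp only [e, Finset.sum_add_distrib, ← Finset.mul_sum, h, Finset.sum_ite_eq',
      Finset.mem_univ, if_true]
    ring

theorem M_one : M 1 1 = 32 / 3 * ∫ x, (fun u : ℝ => (1 - u ^ 2) / √(Q u)) ((x : E 7) 0) ∂(sph 7) := by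
  have h := M_sum
  rw [Fin.sum_univ_seven, M_swap (i := 2) (k := 1) (by decide) (by decide),
    M_swap (i := 3) (k := 1) (by decide) (by decide),
    M_swap (i := 4) (k := 1) (by decide) (by decide),
    M_swap (i := 5) (k := 1) (by decide) (by decide),
    M_swap (i := 6) (k := 1) (by decide) (by decide)] at h
  linarith

end Pool.Agent.V1181.HN
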