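import Pool.Agent.V1181.HN.Sph

set_option autoImplicit false

open MeasureTheory Metric Set InnerProductGeometry

namespace Pool.Agent.V1181.HN

noncomputable def Q (u : ℝ) : ℝ := 4096 + 1046529 * u ^ 2

theorem Q_pos (u : ℝ) : 0 < Q u := by unfold Q; positivity

theorem prim {p1 p3 p5 C : ℝ} {T : ℝ → ℝ}
    (h : ∀ u, (p1 + 3 * p3 * u ^ 2 + 5 * p5 * u ^ 4) * (4096 + 1046529 * u ^ 2) +
      1046529 * u * (p1 * u + p3 * u ^ 3 + p5 * u ^ 5) + 1023 * C = T u) (u : ℝ) :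
    HasDerivAt (fun u => (p1 * u + p3 * u ^ 3 + p5 * u ^ 5) * √(Q u) +
      C * Real.arsinh (1023 / 64 * u)) (T u / √(Q u)) u := by
  have hs : 0 < √(Q u) := Real.sqrt_pos.2 (Q_pos u)
  have hs2 : √(Q u) ^ 2 = 4096 + 1046529 * u ^ 2 := Real.sq_sqrt (Q_pos u).le
  have hP : HasDerivAt (fun u : ℝ => p1 * u + p3 * u ^ 3 + p5 * u ^ 5)
      (p1 + 3 * p3 * u ^ 2 + 5 * p5 * u ^ 4) u := by
    have := (((hasDerivAt_id u).const_mul p1).add ((hasDerivAt_pow 3 u).const_mul p3)).add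
      ((hasDerivAt_pow 5 u).const_mul p5)
    refine this.congr_deriv ?_
    norm_num
    ring
  have hQ : HasDerivAt Q (2 * 1046529 * u) u := by
    have := ((hasDerivAt_pow 2 u).const_mul (1046529 : ℝ)).const_add 4096
    refine this.congr_deriv ?_
    norm_num
    ring
  have hr := hQ.sqrt (Q_pos u).ne'
  have ha : HasDerivAt (fun u : ℝ => Real.arsinh (1023 / 64 * u)) (1023 / √(Q u)) u := by
    have h1 := (Real.hasDerivAt_arsinh (1023 / 64 * u)).comp u
      ((hasDerivAt_id u).const_mul (1023 / 64 : ℝ))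
    refine h1.congr_deriv ?_
    have : √(1 + (1023 / 64 * u) ^ 2) = √(Q u) / 64 := by
      rw [Real.sqrt_eq_iff_mul_self_eq_of_pos (by positivity)]
      have : √(Q u) / 64 * (√(Q u) / 64) = √(Q u) ^ 2 / 4096 := by ring
      rw [this, hs2]; ring
    rw [this]
    field_simp
  have := (hP.mul hr).add (ha.const_mul C)
  refine this.congr_deriv ?_
  rw [eq_div_iff hs.ne', ← h u, ← hs2]
  field_simp

theorem arsinh_val : Real.arsinh (1023 / 64 * 1) = 5 * Real.log 2 := by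
  rw [Real.arsinh]
  have : √(1 + (1023 / 64 * 1 : ℝ) ^ 2) = 1025 / 64 := by
    rw [Real.sqrt_eq_iff_mul_self_eq_of_pos (by norm_num)]
    norm_num
  rw [this, show (1023 / 64 * 1 + 1025 / 64 : ℝ) = 2 ^ 5 by norm_num, Real.log_pow]
  norm_num

theorem sqrtQ_one : √(Q 1) = 1025 := by
  rw [Real.sqrt_eq_iff_mul_self_eq_of_pos (by norm_num)]
  unfold Q; norm_num

theorem cont_sqrtQ : Continuous (fun u => √(Q u)) := by
  unfold Q; fun_prop

theorem value {p1 p3 p5 C : ℝ} {T : ℝ → ℝ} {g : ℝ → ℝ}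
    (h : ∀ u, (p1 + 3 * p3 * u ^ 2 + 5 * p5 * u ^ 4) * (4096 + 1046529 * u ^ 2) +
      1046529 * u * (p1 * u + p3 * u ^ 3 + p5 * u ^ 5) + 1023 * C = T u)
    (hg : Continuous g) (hgT : ∀ u, T u / √(Q u) = g u * (1 - u ^ 2) ^ 2) :
    ∫ x, g ((x : E 7) 0) ∂(sph 7) =
      15 / 8 * (1025 * (p1 + p3 + p5) + 5 * C * Real.log 2) := by
  have hF := fun u => prim h u
  simp only [hgT] at hF
  rw [polar g _ hg hF]
  have e1 : √(Q (-1)) = 1025 := by
    rw [← sqrtQ_one]; unfold Q; norm_num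
  have e2 : Real.arsinh (1023 / 64 * -1) = - (5 * Real.log 2) := by
    rw [← arsinh_val, ← Real.arsinh_neg]; congr 1; ring
  simp only [sqrtQ_one, arsinh_val, e1, e2]
  ring

/-- mean of `x_0^2 / √Q` -/
theorem meanA : ∫ x, (fun u : ℝ => u ^ 2 / √(Q u)) ((x : E 7) 0) ∂(sph 7) =
    15 / 8 * (1025 * (1101663307777 / 2292365152762187778 + (-3144707 / 6571337687046) +
      1 / 6279174) + 5 * (-2256206454327296 / 1172544775637859048447) * Real.log 2) := by
  refine value (g := fun u : ℝ => u ^ 2 / √(Q u)) (p1 := 1101663307777 / 2292365152762187778)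
    (p3 := -3144707 / 6571337687046) (p5 := 1 / 6279174)
    (C := -2256206454327296 / 1172544775637859048447)
    (T := fun u => u ^ 2 * (1 - u ^ 2) ^ 2) ?_ ?_ ?_
  · intro u; ring
  · exact (continuous_pow 2).div cont_sqrtQ (fun u => (Real.sqrt_pos.2 (Q_pos u)).ne')
  · intro u; ring

/-- mean of `(1 - x_0^2) / √Q` -/
theorem meanB : ∫ x, (fun u : ℝ => (1 - u ^ 2) / √(Q u)) ((x : E 7) 0) ∂(sph 7) =
    15 / 8 * (1025 * (-3295324140547 / 2292365152762187778 + 9429001 / 13142675374092 +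
      (-1 / 6279174)) + 5 * (1152931400220934145 / 1172544775637859048447) * Real.log 2) := by
  refine value (g := fun u : ℝ => (1 - u ^ 2) / √(Q u)) (p1 := -3295324140547 / 2292365152762187778)
    (p3 := 9429001 / 13142675374092) (p5 := -1 / 6279174)
    (C := 1152931400220934145 / 1172544775637859048447)
    (T := fun u => (1 - u ^ 2) ^ 3) ?_ ?_ ?_
  · intro u; ring
  · exact (by fun_prop : Continuous fun u : ℝ => 1 - u ^ 2).div cont_sqrtQ
      (fun u => (Real.sqrt_pos.2 (Q_pos u)).ne')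
  · intro u; ring

theorem boundA : 0.000297469 ≤ ∫ x, (fun u : ℝ => u ^ 2 / √(Q u)) ((x : E 7) 0) ∂(sph 7) := by
  rw [meanA]
  have := Real.log_two_lt_d9
  nlinarith

theorem boundB : 0.004699567 ≤ ∫ x, (fun u : ℝ => (1 - u ^ 2) / √(Q u)) ((x : E 7) 0) ∂(sph 7) := by
  rw [meanB]
  have := Real.log_two_gt_d9
  nlinarith

end Pool.Agent.V1181.HN
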