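import Mathlib
import Pool.Agent.H241R3.FV.TPolar
import Pool.Agent.H241R3.FV.TInv

/-! Integrals over the unit sphere of `ℝ^7` of functions of the first coordinate, and symmetries. -/

set_option autoImplicit false

open MeasureTheory Metric Set InnerProductGeometry

namespace Pool.Agent.V1181.HN

/-- Euclidean space -/
abbrev E (n : ℕ) : Type := EuclideanSpace ℝ (Fin n)

/-- The normalized surface measure of the unit sphere. -/
noncomputable def sph (n : ℕ) : Measure (sphere (0 : E n) 1) :=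
  ((volume : Measure (E n)).toSphere univ)⁻¹ • (volume : Measure (E n)).toSphere

theorem sig_univ_ne_zero : (volume : Measure (E 7)).toSphere univ ≠ 0 := by
  exact Measure.measure_univ_ne_zero.2 (Measure.toSphere_ne_zero (volume : Measure (E 7)))

theorem sig_univ_ne_top : (volume : Measure (E 7)).toSphere univ ≠ ⊤ := measure_ne_top _ _

instance : IsProbabilityMeasure (sph 7) := by
  constructor
  unfold sph
  rw [Measure.smul_apply, smul_eq_mul, ENNReal.inv_mul_cancel sig_univ_ne_zero sig_univ_ne_top]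

theorem int_sph (f : sphere (0 : E 7) 1 → ℝ) :
    ∫ x, f x ∂(sph 7) =
      ((volume : Measure (E 7)).toSphere univ).toReal⁻¹ * ∫ x, f x ∂((volume : Measure (E 7)).toSphere) := by
  unfold sph
  rw [integral_smul_measure, smul_eq_mul, ENNReal.toReal_inv]

theorem sub_cos {f F : ℝ → ℝ} (hF : ∀ u, HasDerivAt F (f u) u) (hf : Continuous f) :
    ∫ t in (0 : ℝ)..Real.pi, f (Real.cos t) * Real.sin t = F 1 - F (-1) := by
  have h : ∀ t ∈ uIcc (0 : ℝ) Real.pi,
      HasDerivAt (fun t => - F (Real.cos t)) (f (Real.cos t) * Real.sin t) t := by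
    intro t _
    have h1 := (hF (Real.cos t)).comp t (Real.hasDerivAt_cos t)
    refine h1.neg.congr_deriv ?_
    ring
  rw [intervalIntegral.integral_eq_sub_of_hasDerivAt h]
  · simp
    ring
  · apply Continuous.intervalIntegrable
    exact (hf.comp Real.continuous_cos).mul Real.continuous_sin

theorem polar (g F : ℝ → ℝ) (hg : Continuous g)
    (hF : ∀ u, HasDerivAt F (g u * (1 - u ^ 2) ^ 2) u) :
    ∫ x, g ((x : E 7) 0) ∂(sph 7) = 15 / 16 * (F 1 - F (-1)) := by
  have hT := Pool.Agent.H241R3.FV.TPolar.taskPolar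
  have hang : ∀ x : sphere (0 : E 7) 1,
      Real.cos (angle (x : E 7) (EuclideanSpace.single 0 1)) = (x : E 7) 0 := by
    intro x
    have hx : ‖(x : E 7)‖ = 1 := by simp
    rw [cos_angle, hx, EuclideanSpace.inner_single_right]
    simp
  have e1 := hT 6 (by norm_num) (fun t => g (Real.cos t)) (hg.comp Real.continuous_cos)
  have e2 := hT 6 (by norm_num) (fun t => 1) continuous_const
  have s1 : ∫ t in (0 : ℝ)..Real.pi, g (Real.cos t) * Real.sin t ^ (6 - 1) = F 1 - F (-1) := by
    rw [← sub_cos hF (hg.mul (by fun_prop))]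
    apply intervalIntegral.integral_congr
    intro t _
    have : Real.sin t ^ 2 = 1 - Real.cos t ^ 2 := by
      have := Real.sin_sq_add_cos_sq t; linarith
    show g (Real.cos t) * Real.sin t ^ 5 = g (Real.cos t) * (1 - Real.cos t ^ 2) ^ 2 * Real.sin t
    rw [← this]; ring
  have s2 : ∫ t in (0 : ℝ)..Real.pi, (1 : ℝ) * Real.sin t ^ (6 - 1) = 16 / 15 := by
    have hd : ∀ u : ℝ, HasDerivAt (fun u : ℝ => u - 2 / 3 * u ^ 3 + u ^ 5 / 5)
        ((1 - u ^ 2) ^ 2) u := by
      intro u
      have := (((hasDerivAt_id u).sub ((hasDerivAt_pow 3 u).const_mul (2 / 3))).add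
        ((hasDerivAt_pow 5 u).div_const 5))
      refine this.congr_deriv ?_
      norm_num
      ring
    have := sub_cos hd (by fun_prop)
    have h3 : (1 : ℝ) - 2 / 3 * 1 ^ 3 + 1 ^ 5 / 5 - (-1 - 2 / 3 * (-1) ^ 3 + (-1) ^ 5 / 5) = 16 / 15 := by
      norm_num
    rw [← h3, ← this]
    apply intervalIntegral.integral_congr
    intro t _
    have : Real.sin t ^ 2 = 1 - Real.cos t ^ 2 := by
      have := Real.sin_sq_add_cos_sq t; linarith
    show (1 : ℝ) * Real.sin t ^ 5 = (1 - Real.cos t ^ 2) ^ 2 * Real.sin t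
    rw [← this]; ring
  rw [s1] at e1
  rw [s2] at e2
  simp only [hang, integral_const, smul_eq_mul, mul_one] at e1 e2
  have e3 : ((volume : Measure (E 7)).toSphere univ).toReal =
      (6 : ℕ) * Pool.Agent.H241R3.FV.om 6 * (16 / 15) := by
    rw [← e2]
    rfl
  have e4 : ∫ x : sphere (0 : E 7) 1, g ((x : E 7) 0) ∂((volume : Measure (E 7)).toSphere) =
      (6 : ℕ) * Pool.Agent.H241R3.FV.om 6 * (F 1 - F (-1)) := e1
  rw [int_sph, e4, e3]
  have hne : ((volume : Measure (E 7)).toSphere univ).toReal ≠ 0 := by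
    rw [ENNReal.toReal_ne_zero]
    exact ⟨sig_univ_ne_zero, sig_univ_ne_top⟩
  rw [e3] at hne
  have hom : Pool.Agent.H241R3.FV.om 6 ≠ 0 := by
    intro h0
    apply hne
    rw [h0]; ring
  field_simp

/-- invariance under isometries -/
theorem inv_iso (R : E 7 ≃ₗᵢ[ℝ] E 7) (f : E 7 → ℝ) (hf : Continuous f) :
    ∫ x, f (R (x : E 7)) ∂(sph 7) = ∫ x, f (x : E 7) ∂(sph 7) := by
  have h := Pool.Agent.H241R3.FV.TInv.taskInv 7 (by norm_num) R
  have h2 : ∫ x, f ((Pool.Agent.H241R3.FV.rot R x : sphere (0 : E 7) 1) : E 7)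
      ∂(Pool.Agent.H241R3.FV.sig 7) = ∫ x : sphere (0 : E 7) 1, f (x : E 7) ∂(Pool.Agent.H241R3.FV.sig 7) := by
    have h3 := h.map_eq
    conv_rhs => rw [← h3]
    rw [integral_map h.measurable.aemeasurable]
    exact (hf.comp continuous_subtype_val).aestronglyMeasurable
  rw [int_sph, int_sph]
  congr 1

/-- flip of one coordinate -/
noncomputable def flip (j : Fin 7) : E 7 ≃ₗᵢ[ℝ] E 7 :=
  LinearIsometryEquiv.piLpCongrRight 2
    (fun i => if i = j then LinearIsometryEquiv.neg ℝ else LinearIsometryEquiv.refl ℝ ℝ)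

theorem flip_apply (j i : Fin 7) (x : E 7) : flip j x i = if i = j then - x i else x i := by
  unfold flip
  rw [LinearIsometryEquiv.piLpCongrRight_apply]
  by_cases h : i = j
  · simp [h]
  · simp [h]

/-- swap of two coordinates -/
noncomputable def swp (j k : Fin 7) : E 7 ≃ₗᵢ[ℝ] E 7 :=
  LinearIsometryEquiv.piLpCongrLeft 2 ℝ ℝ (Equiv.swap j k)

theorem swp_apply (j k i : Fin 7) (x : E 7) : swp j k x i = x (Equiv.swap j k i) := by
  unfold swp
  simp [LinearIsometryEquiv.piLpCongrLeft_apply, Equiv.piCongrLeft'_apply]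

end Pool.Agent.V1181.HN
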